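import Pool.Agent.H8.AV3.Fin1

/-!
# FN1: the final assembly of stage 1 of the three-descent
-/

set_option autoImplicit false

namespace Pool.AV3

open Polynomial Matrix Pool.AVR

namespace FN1

theorem six_mul_le (r : ℕ) : (6 : ℝ) * r ≤ 3 ^ r + 3 := by
  have h : ∀ k : ℕ, (6 : ℝ) * ((k : ℝ) + 2) ≤ 3 ^ (k + 2) + 3 := by
    intro k
    induction k with
    | zero => norm_num
    | succ k ih =>
      have h1 : (3 : ℝ) ^ 2 ≤ 3 ^ (k + 2) := pow_le_pow_right₀ (by norm_num) (by omega)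
      have h2 : (3 : ℝ) ^ (k + 1 + 2) = 3 * 3 ^ (k + 2) := by ring
      rw [h2]
      push_cast
      linarith
  rcases r with _ | _ | r
  · norm_num
  · norm_num
  · have := h r
    push_cast
    linarith

/-- Exponential growth beats quadratic growth. -/
theorem asym (q : ℕ) (hq : 2 ≤ q) (B ε : ℝ) (hε : 0 < ε) : ∃ N : ℕ, ∀ n : ℕ, N ≤ n →
    B * ((n : ℝ) + 1) ^ 2 * (q : ℝ) ^ (11 * n + 3) ≤ ε * (q : ℝ) ^ (12 * n + 3) := by
  have hq1 : (1 : ℝ) < q := by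
    have : (2 : ℝ) ≤ q := by exact_mod_cast hq
    linarith
  have h1 := tendsto_pow_const_div_const_pow_of_one_lt 2 hq1
  have hpos : 0 < ε / (4 * (|B| + 1)) := by positivity
  have h2 := h1.eventually (gt_mem_nhds hpos)
  obtain ⟨N, hN⟩ := Filter.eventually_atTop.1 h2
  refine ⟨max N 1, fun n hn => ?_⟩
  have hn1 : N ≤ n := (le_max_left _ _).trans hn
  have hn2 : 1 ≤ n := (le_max_right _ _).trans hn
  have hn3 : (1 : ℝ) ≤ n := by exact_mod_cast hn2
  have h3 := hN n hn1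
  have hqn : (0 : ℝ) < (q : ℝ) ^ n := by positivity
  rw [div_lt_div_iff₀ hqn (by positivity)] at h3
  have h4 : ((n : ℝ) + 1) ^ 2 ≤ 4 * (n : ℝ) ^ 2 := by nlinarith
  have hB : B ≤ |B| := le_abs_self B
  have hB0 : 0 ≤ |B| := abs_nonneg B
  have h5 : B * ((n : ℝ) + 1) ^ 2 ≤ ε * (q : ℝ) ^ n := by
    have h6 : B * ((n : ℝ) + 1) ^ 2 ≤ (|B| + 1) * (4 * (n : ℝ) ^ 2) := by
      have h7 : B * ((n : ℝ) + 1) ^ 2 ≤ (|B| + 1) * ((n : ℝ) + 1) ^ 2 := by
        apply mul_le_mul_of_nonneg_right _ (sq_nonneg _)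
        linarith
      have h8 : (|B| + 1) * ((n : ℝ) + 1) ^ 2 ≤ (|B| + 1) * (4 * (n : ℝ) ^ 2) := by
        apply mul_le_mul_of_nonneg_left h4
        linarith
      linarith
    nlinarith
  have h9 : (q : ℝ) ^ (12 * n + 3) = (q : ℝ) ^ n * (q : ℝ) ^ (11 * n + 3) := by
    rw [← pow_add]
    congr 1
    ring
  rw [h9, ← mul_assoc]
  exact mul_le_mul_of_nonneg_right h5 (by positivity)

end FN1

theorem fn1_of (hFIN : FINStmt) (hCNV : CNVStmt) (hGRC : GRCStmt) (hSUM : SUMStmt)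
    (hDEN : DENStmt) (hRNK : RNKStmt) (hRNK2 : Pool.AVR.RNKStmt) (hST2 : ST2Stmt)
    (hMWL : MWLStmt) (hCNF : CNFStmt) (hDSC : DSCStmt) : FN1Stmt := by
  classical
  intro F _ _ h2
  have h2K : (2 : RatFunc F) ≠ 0 := by
    intro h
    apply h2
    have h3 : algebraMap F (RatFunc F) 2 = algebraMap F (RatFunc F) 0 := by
      rw [map_ofNat, map_zero]
      exact h
    exact (algebraMap F (RatFunc F)).injective h3
  have hdiscmap : ∀ f : F[X] × F[X] × F[X],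
      disc (algebraMap F[X] (RatFunc F) f.1) (algebraMap F[X] (RatFunc F) f.2.1)
        (algebraMap F[X] (RatFunc F) f.2.2) = algebraMap F[X] (RatFunc F)
          (disc f.1 f.2.1 f.2.2) := by
    intro f
    simp only [disc, map_add, map_sub, map_mul, map_pow, map_ofNat]
  have hsep : ∀ f : F[X] × F[X] × F[X], (cubK f).Separable ↔ disc f.1 f.2.1 f.2.2 ≠ 0 := by
    intro f
    rw [cubK, (hDSC (RatFunc F) h2K _ _ _).1, hdiscmap]
    exact (map_ne_zero_iff _ (RatFunc.algebraMap_injective F))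
  have hEllFin : ∀ n, ∀ f ∈ Ell F n, Finite (Mod2 (EK f)) := by
    intro n f hf
    obtain ⟨N, hN⟩ := hST2 F h2 1 one_pos
    have h3 := hN (max n N) (le_max_right _ _)
    refine h3.2.1 f ⟨⟨hf.1.1.trans ?_, hf.1.2.1.trans ?_, hf.1.2.2.trans ?_⟩, hf.2⟩ <;>
    · have := le_max_left n N
      omega
  have hEllFG : ∀ n, ∀ f ∈ Ell F n, AddGroup.FG (EK f) := fun n f hf =>
    hMWL F h2 f ((hsep f).2 hf.2) (hEllFin n f hf)
  have hle : ∀ n, ∀ f ∈ Ell F n, (2 : ℝ) ^ rk f ≤ Nat.card (Mod2 (EK f)) := by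
    intro n f hf
    have := (hRNK2 (EK f) (hEllFG n f hf)).2.1
    exact_mod_cast this
  have hGE : ∀ n, Gd (F := F) n ⊆ Ell F n := fun n f hf => hf.1
  have hcard3 : ∀ n : ℕ, ∀ f ∈ Gd (F := F) n, Nat.card (Mod3 (EK f)) = 3 ^ rk f :=
    fun n f hf => ((hRNK (EK f) (hEllFG n f hf.1)).2.2 hf.2.1).symm
  have hq2 : 2 ≤ Nat.card F := Finite.one_lt_card
  have hfam : ∀ n : ℕ, 1 ≤ n → (Fam F n).ncard = Nat.card F ^ (12 * n + 3) ∧
      {f ∈ Fam F n | f ∉ Gd (F := F) n}.ncard ≤ 3 * Nat.card F ^ (11 * n + 3) := by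
    intro n hn
    obtain ⟨hf1, hf2, hf3⟩ := hCNF F h2 n hn
    refine ⟨hf2, ?_⟩
    have hsub : {f ∈ Fam F n | f ∉ Gd (F := F) n} ⊆
        {f ∈ Fam F n | ¬ (Irreducible (cubK f) ∧ (cubK f).Separable)} ∪
          {f | f ∈ Ell F n ∧ f ∉ Gd (F := F) n} := by
      intro f hf
      by_cases hd : disc f.1 f.2.1 f.2.2 = 0
      · left
        exact ⟨hf.1, fun h => ((hsep f).1 h.2) hd⟩
      · right
        exact ⟨⟨hf.1, hd⟩, hf.2⟩
    have hle := Set.ncard_le_ncard hsub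
      ((hf1.subset fun f hf => hf.1).union (hf1.subset fun f hf => hf.1.1))
    have h4 := Set.ncard_union_le
      {f ∈ Fam F n | ¬ (Irreducible (cubK f) ∧ (cubK f).Separable)}
      {f | f ∈ Ell F n ∧ f ∉ Gd (F := F) n}
    have h5 := hDEN F h2 n hn
    have h6 : Nat.card F ^ (8 * n + 3) ≤ Nat.card F ^ (11 * n + 3) :=
      Nat.pow_le_pow_right (by omega) (by omega)
    omega
  refine ⟨hEllFG, hcard3, hfam, ?_⟩
  intro ε hε
  have hqR : (2 : ℝ) ≤ (Nat.card F : ℝ) := by exact_mod_cast hq2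
  obtain ⟨q, hqdef⟩ : ∃ q : ℝ, q = (Nat.card F : ℝ) := ⟨_, rfl⟩
  have hq2' : (2 : ℝ) ≤ q := by rw [hqdef]; exact hqR
  have hZ : Zc F = q ^ 8 / ((q - 1) * (q ^ 2 - 1) ^ 2 * (q ^ 3 - 1)) := by
    rw [hqdef]
    rfl
  have hq3 : (0 : ℝ) < q ^ 3 - 1 := by
    have h1 : 1 < q ^ 3 := one_lt_pow₀ (by linarith) (by norm_num)
    linarith
  have hZ0 : 0 ≤ Zc F := by
    rw [hZ]
    have h1 : (0 : ℝ) ≤ q - 1 := by linarith
    positivity
  -- the main inequality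
  have hmain : ∀ n : ℕ, 1 ≤ n → ∑ᶠ f ∈ Gd (F := F) n, (3 : ℝ) ^ rk f ≤
      (Gd (F := F) n).ncard + 3 * Zc F * q ^ (12 * n + 3) +
        ((n : ℝ) + 1) ^ 2 * q ^ (11 * n + 7) / (q - 1) ^ 2 := by
    intro n hn
    have hfin : (Gd (F := F) n).Finite := (hCNF F h2 n hn).1.subset fun f hf => hf.1.1
    have h1 := (hFIN F h2 n (Gd (F := F) n) (Set.Subset.refl _)).2
    have h3 : ∑ᶠ f ∈ Gd (F := F) n, (3 : ℝ) ^ rk f =
        ∑ᶠ f ∈ Gd (F := F) n, ((Nat.card (Mod3 (EK f)) : ℝ) - 1) + (Gd (F := F) n).ncard := by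
      have h4 : ((Gd (F := F) n).ncard : ℝ) = ∑ᶠ f ∈ Gd (F := F) n, (1 : ℝ) := by
        rw [finsum_mem_const hfin, mul_one]
      rw [h4, ← finsum_mem_add_distrib hfin]
      apply finsum_mem_congr rfl
      intro f hf
      rw [hcard3 n f hf]
      push_cast
      ring
    have h5 := hSUM (Nat.card F) n
      (fun α β => ((Hit n (dv α β) (Gd (F := F) n)).ncard : ℝ))
      (fun α β => ((G3 (dv α β) : Set (Matrix (Fin 3) (Fin 3) F[X])).ncard : ℝ)) hq2
      (by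
        intro α β hα hβ
        refine ⟨Nat.cast_nonneg _, ?_⟩
        obtain ⟨h6, h7⟩ := hCNV F n α β hα hβ
        have h8 : (Hit n (dv α β) (Gd (F := F) n)).ncard ≤
            (Vd n (dv α β) : Set (Fin 10 → F[X])).ncard :=
          Set.ncard_le_ncard (fun c hc => hc.1) h6
        exact_mod_cast h8.trans h7)
      (by
        have h6 := (hGRC F).2.1
        have h7 : 1 ≤ Nat.card F ^ 3 := Nat.one_le_pow _ _ (by omega)
        have h8 : Nat.card F ≤ Nat.card F ^ 3 := Nat.le_self_pow (by norm_num) _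
        have h9 : Nat.card F ^ 2 ≤ Nat.card F ^ 3 := Nat.pow_le_pow_right (by omega) (by norm_num)
        have h10 : (((Nat.card F ^ 3 - 1) * (Nat.card F ^ 3 - Nat.card F) *
          (Nat.card F ^ 3 - Nat.card F ^ 2) : ℕ) : ℝ) ≤
            ((G3 (dv 0 0) : Set (Matrix (Fin 3) (Fin 3) F[X])).ncard : ℝ) := by
          exact_mod_cast h6
        rw [Nat.cast_mul, Nat.cast_mul, Nat.cast_sub h7, Nat.cast_sub h8, Nat.cast_sub h9] at h10
        push_cast at h10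
        exact h10)
      (by
        intro m hm
        have h6 := (hGRC F).2.2.1 m hm
        have h7 : 1 ≤ Nat.card F ^ 2 := Nat.one_le_pow _ _ (by omega)
        have h8 : Nat.card F ≤ Nat.card F ^ 2 := Nat.le_self_pow (by norm_num) _
        have h9 : 1 ≤ Nat.card F := by omega
        have h10 : (((Nat.card F ^ 2 - 1) * (Nat.card F ^ 2 - Nat.card F) *
          ((Nat.card F - 1) * Nat.card F ^ (2 * m + 2)) : ℕ) : ℝ) ≤
            ((G3 (dv 0 m) : Set (Matrix (Fin 3) (Fin 3) F[X])).ncard : ℝ) := by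
          exact_mod_cast h6
        rw [Nat.cast_mul, Nat.cast_mul, Nat.cast_mul, Nat.cast_sub h7, Nat.cast_sub h8,
          Nat.cast_sub h9] at h10
        push_cast at h10
        exact h10)
      (by
        intro m hm
        have h6 := (hGRC F).2.2.2.1 m hm
        have h7 : 1 ≤ Nat.card F ^ 2 := Nat.one_le_pow _ _ (by omega)
        have h8 : Nat.card F ≤ Nat.card F ^ 2 := Nat.le_self_pow (by norm_num) _
        have h9 : 1 ≤ Nat.card F := by omega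
        have h10 : (((Nat.card F ^ 2 - 1) * (Nat.card F ^ 2 - Nat.card F) *
          ((Nat.card F - 1) * Nat.card F ^ (2 * m + 2)) : ℕ) : ℝ) ≤
            ((G3 (dv m 0) : Set (Matrix (Fin 3) (Fin 3) F[X])).ncard : ℝ) := by
          exact_mod_cast h6
        rw [Nat.cast_mul, Nat.cast_mul, Nat.cast_mul, Nat.cast_sub h7, Nat.cast_sub h8,
          Nat.cast_sub h9] at h10
        push_cast at h10
        exact h10)
      (by
        intro α β hα hβ
        have h6 := (hGRC F).2.2.2.2 α β hα hβ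
        have h9 : 1 ≤ Nat.card F := by omega
        have h10 : (((Nat.card F - 1) ^ 3 * Nat.card F ^ (2 * α + 2 * β + 3) : ℕ) : ℝ) ≤
            ((G3 (dv α β) : Set (Matrix (Fin 3) (Fin 3) F[X])).ncard : ℝ) := by
          exact_mod_cast h6
        rw [Nat.cast_mul, Nat.cast_pow, Nat.cast_sub h9] at h10
        push_cast at h10
        exact h10)
    rw [← hqdef] at h1 h5
    have h11 : q ^ (12 * n + 11) *
        (3 / ((q - 1) * (q ^ 2 - 1) ^ 2 * (q ^ 3 - 1))) = 3 * Zc F * q ^ (12 * n + 3) := by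
      rw [hZ]
      have h12 : q ^ (12 * n + 11) = q ^ (12 * n + 3) * q ^ 8 := by
        rw [← pow_add]
      rw [h12]
      ring
    rw [h11] at h5
    have h13 := h1.trans h5
    rw [h3]
    linarith
  obtain ⟨N1, hN1⟩ := hST2 F h2 1 one_pos
  obtain ⟨a, ha⟩ := pow_unbounded_of_one_lt
    (1 + 2 / ((1 - 1 / (Nat.card F : ℝ)) * (1 - 1 / (Nat.card F : ℝ) ^ 2)) + 1)
    (by norm_num : (1 : ℝ) < 2)
  -- the ranks
  have hrk : ∀ n : ℕ, N1 ≤ n → 1 ≤ n → ∀ f ∈ Ell F n,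
      (rk f : ℝ) ≤ ((a : ℝ) + 12 * q) * ((n : ℝ) + 1) ^ 2 := by
    intro n hn hn1 f hf
    obtain ⟨h3, h4, h5⟩ := hN1 n hn
    have h6 : (Nat.card (Mod2 (EK f)) : ℝ) ≤
        ∑ᶠ f ∈ Ell F n, (Nat.card (Mod2 (EK f)) : ℝ) := by
      rw [finsum_mem_eq_finite_toFinset_sum _ h3]
      exact Finset.single_le_sum (f := fun f => (Nat.card (Mod2 (EK f)) : ℝ))
        (fun i _ => Nat.cast_nonneg _) (h3.mem_toFinset.2 hf)
    have h7 : ((Ell F n).ncard : ℝ) ≤ (Nat.card F : ℝ) ^ (12 * n + 3) := by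
      have h8 : (Ell F n).ncard ≤ (Fam F n).ncard :=
        Set.ncard_le_ncard (fun f hf => hf.1) (hCNF F h2 n hn1).1
      rw [(hfam n hn1).1] at h8
      exact_mod_cast h8
    have h8 : (2 : ℝ) ^ rk f ≤ 2 ^ a * (Nat.card F : ℝ) ^ (12 * n + 3) := by
      refine (hle n f hf).trans (h6.trans (h5.trans ?_))
      exact mul_le_mul ha.le h7 (Nat.cast_nonneg _) (by positivity)
    have h9 : (Nat.card F : ℝ) ≤ 2 ^ (Nat.card F) := by
      exact_mod_cast (Nat.lt_two_pow_self (n := Nat.card F)).le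
    have h10 : (2 : ℝ) ^ rk f ≤ 2 ^ (a + Nat.card F * (12 * n + 3)) := by
      refine h8.trans ?_
      have e : (2 : ℝ) ^ (a + Nat.card F * (12 * n + 3)) =
          2 ^ a * ((2 : ℝ) ^ Nat.card F) ^ (12 * n + 3) := by
        rw [pow_add, pow_mul]
      rw [e]
      exact mul_le_mul_of_nonneg_left (pow_le_pow_left₀ (by positivity) h9 _) (by positivity)
    have h11 : rk f ≤ a + Nat.card F * (12 * n + 3) :=
      (pow_le_pow_iff_right₀ (by norm_num : (1 : ℝ) < 2)).1 h10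
    have h12 : (rk f : ℝ) ≤ a + q * (12 * n + 3) := by
      rw [hqdef]
      exact_mod_cast h11
    have hn0 : (0 : ℝ) ≤ n := Nat.cast_nonneg n
    have ha0 : (0 : ℝ) ≤ a := Nat.cast_nonneg a
    have h13 : (a : ℝ) + q * (12 * n + 3) ≤ ((a : ℝ) + 12 * q) * ((n : ℝ) + 1) := by
      have h15 := mul_nonneg ha0 hn0
      have h16 : ((a : ℝ) + 12 * q) * ((n : ℝ) + 1) - (a + q * (12 * n + 3)) =
        a * n + 9 * q := by ring
      linarith
    have h14 : ((a : ℝ) + 12 * q) * ((n : ℝ) + 1) ≤ ((a : ℝ) + 12 * q) * ((n : ℝ) + 1) ^ 2 := by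
      apply mul_le_mul_of_nonneg_left _ (by positivity)
      exact le_self_pow₀ (by linarith) two_ne_zero
    linarith
  obtain ⟨N2, hN2⟩ := FN1.asym (Nat.card F) hq2 (9 * Zc F + q ^ 4 + ((a : ℝ) + 12 * q)) (ε / 2)
    (by linarith)
  obtain ⟨N3, hN3⟩ := FN1.asym (Nat.card F) hq2 3 (1 / 2) (by norm_num)
  refine ⟨max (max N1 N2) (max N3 1), fun n hn => ?_⟩
  have hn1 : N1 ≤ n := ((le_max_left _ _).trans (le_max_left _ _)).trans hn
  have hn2 : N2 ≤ n := ((le_max_right _ _).trans (le_max_left _ _)).trans hn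
  have hn3 : N3 ≤ n := ((le_max_left _ _).trans (le_max_right _ _)).trans hn
  have hn4 : 1 ≤ n := ((le_max_right _ _).trans (le_max_right _ _)).trans hn
  have e2 := hN2 n hn2
  have e3 := hN3 n hn3
  rw [← hqdef] at e2 e3
  have hFamFin := (hCNF F h2 n hn4).1
  have hGfin : (Gd (F := F) n).Finite := hFamFin.subset fun f hf => hf.1.1
  have hEfin : (Ell F n).Finite := hFamFin.subset fun f hf => hf.1
  obtain ⟨P, hP⟩ : ∃ P : ℝ, P = q ^ (11 * n + 3) := ⟨_, rfl⟩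
  obtain ⟨Q, hQ⟩ : ∃ Q : ℝ, Q = q ^ (12 * n + 3) := ⟨_, rfl⟩
  obtain ⟨u, hu⟩ : ∃ u : ℝ, u = ((n : ℝ) + 1) ^ 2 := ⟨_, rfl⟩
  have hn0 : (0 : ℝ) ≤ n := Nat.cast_nonneg n
  have hP0 : 0 < P := by rw [hP]; positivity
  have hu1 : 1 ≤ u := by rw [hu]; exact one_le_pow₀ (by linarith)
  rw [← hP, ← hQ, ← hu] at e2 e3
  -- number of the good curves
  have hg1 : Q ≤ (Gd (F := F) n).ncard + 3 * P := by
    have h3 : Fam F n = Gd (F := F) n ∪ {f ∈ Fam F n | f ∉ Gd (F := F) n} := by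
      ext f
      simp only [Set.mem_union, Set.mem_ofPred_eq]
      constructor
      · intro h
        by_cases h4 : f ∈ Gd (F := F) n
        · exact Or.inl h4
        · exact Or.inr ⟨h, h4⟩
      · rintro (h | h)
        · exact h.1.1
        · exact h.1
    have h4 := Set.ncard_union_le (Gd (F := F) n) {f ∈ Fam F n | f ∉ Gd (F := F) n}
    rw [← h3, (hfam n hn4).1] at h4
    have h5 := h4.trans (Nat.add_le_add_left (hfam n hn4).2 _)
    rw [hQ, hP, hqdef]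
    exact_mod_cast h5
  have hg2 : ((Gd (F := F) n).ncard : ℝ) ≤ (Ell F n).ncard := by
    exact_mod_cast Set.ncard_le_ncard (hGE n) hEfin
  have huP : P ≤ u * P := le_mul_of_one_le_left hP0.le hu1
  have hgQ : Q / 2 ≤ (Gd (F := F) n).ncard := by
    have : 3 * P ≤ 3 * u * P := by linarith
    linarith
  -- the sum of 3 ^ rank
  have hm := hmain n hn4
  have hq4 : ((n : ℝ) + 1) ^ 2 * q ^ (11 * n + 7) / (q - 1) ^ 2 ≤ q ^ 4 * (u * P) := by
    have h3 : q ^ (11 * n + 7) = q ^ 4 * P := by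
      rw [hP, ← pow_add]
      congr 1
      ring
    rw [← hu, h3]
    have h4 : (1 : ℝ) ≤ (q - 1) ^ 2 := one_le_pow₀ (by linarith)
    have h5 : 0 ≤ u * (q ^ 4 * P) := by positivity
    calc u * (q ^ 4 * P) / (q - 1) ^ 2 ≤ u * (q ^ 4 * P) / 1 :=
          div_le_div_of_nonneg_left h5 one_pos h4
      _ = q ^ 4 * (u * P) := by ring
  rw [← hQ] at hm
  have hsum : ∑ᶠ f ∈ Gd (F := F) n, (3 : ℝ) ^ rk f ≤
      (1 + 3 * Zc F) * (Gd (F := F) n).ncard + (9 * Zc F + q ^ 4) * (u * P) := by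
    have h3 : 3 * Zc F * Q ≤ 3 * Zc F * ((Gd (F := F) n).ncard + 3 * P) :=
      mul_le_mul_of_nonneg_left hg1 (by positivity)
    have h4 : 9 * Zc F * P ≤ 9 * Zc F * (u * P) :=
      mul_le_mul_of_nonneg_left huP (by positivity)
    have h5 : 3 * Zc F * ((Gd (F := F) n).ncard + 3 * P) =
      3 * Zc F * (Gd (F := F) n).ncard + 9 * Zc F * P := by ring
    linarith
  have haq : (0 : ℝ) ≤ ((a : ℝ) + 12 * q) * (u * P) := by positivity
  have h9q : (0 : ℝ) ≤ (9 * Zc F + q ^ 4) * (u * P) := by positivity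
  have herr : (9 * Zc F + q ^ 4) * (u * P) + ((a : ℝ) + 12 * q) * (u * P) ≤
      ε * (Gd (F := F) n).ncard := by
    have h3 : (9 * Zc F + q ^ 4) * (u * P) + ((a : ℝ) + 12 * q) * (u * P) =
      (9 * Zc F + q ^ 4 + ((a : ℝ) + 12 * q)) * u * P := by ring
    rw [h3]
    refine e2.trans ?_
    have h4 := mul_le_mul_of_nonneg_left hgQ hε.le
    linarith
  refine ⟨?_, ?_⟩
  · refine hsum.trans ?_
    have h3 : (1 + 3 * Zc F + ε) * ((Gd (F := F) n).ncard : ℝ) =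
      (1 + 3 * Zc F) * (Gd (F := F) n).ncard + ε * (Gd (F := F) n).ncard := by ring
    rw [h3]
    linarith
  · have h3 : ∑ᶠ f ∈ Ell F n, (rk f : ℝ) =
        ∑ᶠ f ∈ Gd (F := F) n, (rk f : ℝ) + ∑ᶠ f ∈ Ell F n \ Gd (F := F) n, (rk f : ℝ) :=
      (finsum_mem_add_sdiff (hGE n) hEfin).symm
    have h4 : ∑ᶠ f ∈ Gd (F := F) n, (6 : ℝ) * (rk f : ℝ) ≤
        ∑ᶠ f ∈ Gd (F := F) n, ((3 : ℝ) ^ rk f + 3) :=
      finsum_mem_le hGfin fun f _ => FN1.six_mul_le (rk f)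
    have h5 : ∑ᶠ f ∈ Gd (F := F) n, (6 : ℝ) * (rk f : ℝ) =
        6 * ∑ᶠ f ∈ Gd (F := F) n, (rk f : ℝ) := by
      rw [finsum_mem_eq_finite_toFinset_sum _ hGfin, finsum_mem_eq_finite_toFinset_sum _ hGfin,
        Finset.mul_sum]
    have h6 : ∑ᶠ f ∈ Gd (F := F) n, ((3 : ℝ) ^ rk f + 3) =
        ∑ᶠ f ∈ Gd (F := F) n, (3 : ℝ) ^ rk f + (Gd (F := F) n).ncard * 3 := by
      rw [finsum_mem_add_distrib hGfin, finsum_mem_const hGfin]
    have hDfin : (Ell F n \ Gd (F := F) n).Finite := hEfin.subset Set.sdiff_subset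
    have h7 : ∑ᶠ f ∈ Ell F n \ Gd (F := F) n, (rk f : ℝ) ≤
        ∑ᶠ f ∈ Ell F n \ Gd (F := F) n, (((a : ℝ) + 12 * q) * ((n : ℝ) + 1) ^ 2) :=
      finsum_mem_le hDfin fun f hf => hrk n hn1 hn4 f hf.1
    rw [finsum_mem_const hDfin, ← hu] at h7
    have h8 : ((Ell F n \ Gd (F := F) n).ncard : ℝ) ≤ P := by
      have h9 : (Ell F n \ Gd (F := F) n).ncard ≤ Nat.card F ^ (11 * n + 3) := hDEN F h2 n hn4
      rw [hP, hqdef]
      exact_mod_cast h9
    have h9 : ((Ell F n \ Gd (F := F) n).ncard : ℝ) * (((a : ℝ) + 12 * q) * u) ≤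
        ((a : ℝ) + 12 * q) * (u * P) := by
      have h10 : (0 : ℝ) ≤ ((a : ℝ) + 12 * q) * u := by positivity
      calc ((Ell F n \ Gd (F := F) n).ncard : ℝ) * (((a : ℝ) + 12 * q) * u) ≤
            P * (((a : ℝ) + 12 * q) * u) := mul_le_mul_of_nonneg_right h8 h10
        _ = _ := by ring
    have h10 : ∑ᶠ f ∈ Ell F n, (rk f : ℝ) ≤ (2 / 3 + Zc F / 2 + ε) * (Gd (F := F) n).ncard := by
      have h11 : (2 / 3 + Zc F / 2 + ε) * ((Gd (F := F) n).ncard : ℝ) =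
        ((1 + 3 * Zc F) * (Gd (F := F) n).ncard + (Gd (F := F) n).ncard * 3) / 6 +
          ε * (Gd (F := F) n).ncard := by ring
      rw [h3, h11]
      linarith
    refine h10.trans (mul_le_mul_of_nonneg_left hg2 ?_)
    positivity

end Pool.AV3
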