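import Pool.Agent.H1.AV3.TRA
import Pool.Agent.H11.AV3.CSP
import Pool.Agent.H11.AV3.FLX
import Pool.Agent.H15.AV3.FIN
import Pool.Agent.H17.AV3.RNK
import Pool.Agent.H17.AV3.STB
import Pool.Agent.H19.AV3.KEY
import Pool.Agent.H29.AV3.SUM
import Pool.Agent.H29.AV3.UNI
import Pool.Agent.H31.AV3.GRC
import Pool.Agent.H33.AV3.FLT
import Pool.Agent.H33.AV3.ONT
import Pool.Agent.H34.AV3.ACT
import Pool.Agent.H34.AV3.CNV
import Pool.Agent.H42.AV3.CPR
import Pool.Agent.H42.AV3.UNQ
import Pool.Agent.H49.AV3.TRS
import Pool.Agent.H57.AV3.LAT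
import Pool.Agent.H58.AV3.NFX
import Pool.Agent.H74.AV3.DEN
import Pool.Agent.H74.AV3.SNG
import Pool.Agent.H78.AV3.SRT
import Pool.Agent.H87.AV3.TRB
import Pool.Agent.H87.AV3.TRC
import Pool.Agent.H9.AV3.INJ
import Pool.Agent.H14.AVR.All
import Pool.Agent.H64.AV3.FN1

/-!
# Three-descent over `F(t)`: all modules of stage 1 together
-/

set_option autoImplicit false

namespace Pool.AVR

/-- The statements of the two-descent project which are used for the three-descent. -/
theorem avr_for_av3 : DENStmt ∧ DNIStmt ∧ BIRStmt ∧ RNKStmt ∧ ST2Stmt ∧ MWLStmt ∧ CNFStmt ∧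
    DSCStmt := by
  have hKER : KERStmt := by
    apply KER_thm <;> assumption
  have hHOM : HOMStmt := by
    apply hom_thm <;> assumption
  have hINJ : INJStmt := by
    apply inj_thm <;> assumption
  have hISO : ISOStmt := by
    apply iso_thm <;> assumption
  have hCHP : CHPStmt := by
    apply chp_thm <;> assumption
  have hSYB : SYBStmt := by
    apply syb_thm <;> assumption
  have hCHB : CHBStmt := by
    apply chb_thm <;> assumption
  have hBAS : BASStmt := by
    apply bas_thm <;> assumption
  have hSTAB : STABStmt := by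
    apply STAB_thm <;> assumption
  have hLAT : LATStmt := by
    apply lat_thm <;> assumption
  have hSCL : SCLStmt := by
    apply scl_thm <;> assumption
  have hDEN : DENStmt := by
    apply den_thm <;> assumption
  have hDNI : DNIStmt := by
    apply dni_thm <;> assumption
  have hBIR : BIRStmt := by
    apply bir_thm <;> assumption
  have hNRM : NRMStmt := by
    apply nrm_thm <;> assumption
  have hKEY : KEYStmt := by
    apply key_thm <;> assumption
  have hGRP : GRPStmt := by
    apply grp_thm <;> assumption
  have hACT : ACTStmt := by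
    apply act_thm <;> assumption
  have hCNB : CNBStmt := by
    apply cnb_thm <;> assumption
  have hCNF : CNFStmt := by
    apply cnf_thm <;> assumption
  have hFIN : FINStmt := by
    apply fin_thm <;> assumption
  have hSTE : STEStmt := by
    apply ste_thm <;> assumption
  have hDSC : DSCStmt := by
    apply DSC_thm <;> assumption
  have hICB : ICBStmt := by
    apply icb_thm <;> assumption
  have hLDP : LDPStmt := by
    apply ldp_thm <;> assumption
  have hEQB : EQBStmt := by
    apply eqb_thm <;> assumption
  have hRED : REDStmt := by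
    apply red_thm <;> assumption
  have hRNK : RNKStmt := by
    apply rnk_thm <;> assumption
  have hAAV : AAVStmt := by
    apply aav_thm <;> assumption
  have hPLL : PLLStmt := by
    apply pll_thm <;> assumption
  have hMWL : MWLStmt := by
    apply mwl_thm <;> assumption
  have hST1 : ST1Stmt := by
    apply st1_thm <;> assumption
  have hST2 : ST2Stmt := by
    apply ST2.st2_thm <;> assumption
  exact ⟨hDEN, hDNI, hBIR, hRNK, hST2, hMWL, hCNF, hDSC⟩

end Pool.AVR

namespace Pool.AV3

open Pool.AVR Pool.Agent

/-- FN1: the final statement of stage 1, without hypotheses. -/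
theorem fn1_thm : FN1Stmt := by
  obtain ⟨rDEN, rDNI, rBIR, rRNK, rST2, rMWL, rCNF, rDSC⟩ := Pool.AVR.avr_for_av3
  have hTRA : TRAStmt := by
    apply H1.AV3.TRA_thm <;> assumption
  have hTRB : TRBStmt := by
    apply H87.AV3.TRB_thm <;> assumption
  have hTRC : TRCStmt := by
    apply H87.AV3.TRC_thm <;> assumption
  have hONT : ONTStmt := by
    apply Pool.AV3.ont_thm <;> assumption
  have hTRS : TRSStmt := by
    apply H49.AV3.trs_thm <;> assumption
  have hFLT : FLTStmt := by
    apply Pool.AV3.flt_thm <;> assumption
  have hNFX : NFXStmt := by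
    apply H58.AV3.nfx_thm <;> assumption
  have hUNQ : UNQStmt := by
    apply H42.AV3.unq_thm <;> assumption
  have hINJ : INJStmt := by
    apply H9.AV3.inj_thm <;> assumption
  have hSTB : STBStmt := by
    apply H17.AV3.stb_thm <;> assumption
  have hFLX : FLXStmt := by
    apply H11.AV3.flx_thm <;> assumption
  have hSNG : SNGStmt := by
    apply H74.AV3.SNG_thm <;> assumption
  have hLAT : LATStmt := by
    apply H57.AV3.LAT_thm <;> assumption
  have hCPR : CPRStmt := by
    apply H42.AV3.cpr_thm <;> assumption
  have hSCL : SCLStmt := by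
    apply H42.AV3.scl_thm <;> assumption
  have hKEY : KEYStmt := by
    apply H19.AV3.key_thm <;> assumption
  have hSRT : SRTStmt := by
    apply H78.AV3.SRT_thm <;> assumption
  have hCSP : CSPStmt := by
    apply H11.AV3.csp_thm <;> assumption
  have hCNV : CNVStmt := by
    apply H34.AV3.CNV_thm <;> assumption
  have hGRC : GRCStmt := by
    apply GRC_thm <;> assumption
  have hACT : ACTStmt := by
    apply H34.AV3.ACT_thm <;> assumption
  have hUNI : UNIStmt := by
    apply H29.AV3.uni_thm <;> assumption
  have hFIN : FINStmt := by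
    apply FIN_thm <;> assumption
  have hSUM : SUMStmt := by
    apply H29.AV3.sum_thm <;> assumption
  have hDEN : DENStmt := by
    apply H74.AV3.DEN_thm <;> assumption
  have hRNK : RNKStmt := by
    apply H17.AV3.rnk_thm <;> assumption
  exact fn1_of hFIN hCNV hGRC hSUM hDEN hRNK rRNK rST2 rMWL rCNF rDSC

end Pool.AV3
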